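import Mathlib

/-!
Project WS (MP_1fe969_ag), block WS-20: finite counting.
-/

open Finset

namespace Pool.Agent.Helper9.WS

theorem count_big {L Γ : Type} [Zero L] [LinearOrder Γ] {D : ℕ} (b : Fin D → L) (v : L → Γ)
    {α : Type} (S : Finset α) (w : α → ℕ) {W : ℕ} (hW : 0 < W) (hS : ∀ a ∈ S, w a < W) (t : ℕ → Γ)
    (ht : ∀ i j, i < j → j < W → t j < t i)
    (h1 : ∀ j < W, (univ.filter fun i => t j < v (b i)).card = (S.filter fun a => w a < j).card)
    (h2 : ∀ j < W, (univ.filter fun i => v (b i) = t j).card = (S.filter fun a => w a = j).card)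
    (h3 : ∀ j < W, ∀ i i', v (b i) = t j → b i = b i' → i = i') :
    (univ.filter fun i => t (W - 1) ≤ v (b i)).card = S.card ∧
      ∀ i i', t (W - 1) ≤ v (b i) → b i = b i' → i = i' := by
  classical
  have hW1 : W - 1 < W := Nat.sub_lt hW Nat.one_pos
  have e1 : (univ.filter fun i => t (W - 1) ≤ v (b i)).card = S.card := by
    have e2 : (univ.filter fun i => t (W - 1) ≤ v (b i)) =
        (univ.filter fun i => t (W - 1) < v (b i)) ∪ (univ.filter fun i => v (b i) = t (W - 1)) := by
      ext i
      simp only [mem_filter, mem_univ, true_and, mem_union]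
      rw [le_iff_lt_or_eq, eq_comm (a := t (W - 1))]
    have e3 : S = (S.filter fun a => w a < W - 1) ∪ (S.filter fun a => w a = W - 1) := by
      ext a
      simp only [mem_filter, mem_union]
      constructor
      · intro ha
        have h4 := hS a ha
        rcases Nat.lt_or_ge (w a) (W - 1) with h5 | h5
        · exact Or.inl ⟨ha, h5⟩
        · exact Or.inr ⟨ha, by omega⟩
      · rintro (h | h)
        · exact h.1
        · exact h.1
    rw [e2, card_union_of_disjoint, h1 _ hW1, h2 _ hW1]
    · conv_rhs => rw [e3]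
      rw [card_union_of_disjoint]
      rw [Finset.disjoint_left]
      intro a ha hb
      rw [mem_filter] at ha hb
      omega
    · rw [Finset.disjoint_left]
      intro i hi hj
      rw [mem_filter] at hi hj
      exact absurd hj.2 hi.2.ne'
  refine ⟨e1, ?_⟩
  have hsub : ((range W).biUnion fun j => univ.filter fun i => v (b i) = t j) ⊆
      (univ.filter fun i => t (W - 1) ≤ v (b i)) := by
    intro i hi
    obtain ⟨j, hj, hij⟩ := mem_biUnion.1 hi
    rw [mem_filter] at hij ⊢
    refine ⟨mem_univ _, ?_⟩
    rw [hij.2]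
    have hj' := mem_range.1 hj
    rcases Nat.lt_or_ge j (W - 1) with h4 | h4
    · exact (ht j (W - 1) h4 hW1).le
    · have h5 : j = W - 1 := by omega
      rw [h5]
  have hcard : ((range W).biUnion fun j => univ.filter fun i => v (b i) = t j).card = S.card := by
    rw [card_biUnion]
    · rw [card_eq_sum_card_fiberwise (f := w) (t := range W) (s := S)
        (fun a ha => mem_coe.2 (mem_range.2 (hS a ha)))]
      exact sum_congr rfl fun j hj => h2 j (mem_range.1 hj)
    · intro j hj j' hj' hne
      change Disjoint (univ.filter fun i => v (b i) = t j) (univ.filter fun i => v (b i) = t j')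
      rw [Finset.disjoint_left]
      intro i hi hi'
      rw [mem_filter] at hi hi'
      have h4 : t j = t j' := hi.2.symm.trans hi'.2
      rcases Nat.lt_or_gt_of_ne hne with h5 | h5
      · exact absurd h4 (ht j j' h5 (mem_range.1 (mem_coe.1 hj'))).ne'
      · exact absurd h4 (ht j' j h5 (mem_range.1 (mem_coe.1 hj))).ne
  have heq := eq_of_subset_of_card_le hsub (by rw [hcard, e1])
  intro i i' hi hii
  have h4 : i ∈ (univ.filter fun i => t (W - 1) ≤ v (b i)) := mem_filter.2 ⟨mem_univ _, hi⟩
  rw [← heq] at h4
  obtain ⟨j, hj, hij⟩ := mem_biUnion.1 h4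
  exact h3 j (mem_range.1 hj) i i' (mem_filter.1 hij).2 hii

end Pool.Agent.Helper9.WS
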