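import Pool.Agent.Helper9.WS.Defs4

/-!
Project WS, block WS-24: the exponential sum is invariant under automorphisms of the plane and the addition of `h ^ p - h`.
-/

open MvPolynomial Finset Module

namespace Pool.Agent.Helper9.WS

private lemma trace_frob34 {p : ℕ} [Fact p.Prime] (K : Type) [Field K] [Fintype K] [Algebra (ZMod p) K] (z : K) :
    Algebra.trace (ZMod p) K (z ^ p) = Algebra.trace (ZMod p) K z := by
  have h1 := Algebra.trace_eq_of_algEquiv (FiniteField.frobeniusAlgEquivOfAlgebraic (ZMod p) K) z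
  rw [FiniteField.coe_frobeniusAlgEquivOfAlgebraic, ZMod.card] at h1
  exact h1

/-- the action of an automorphism on the points -/
private noncomputable def pt34 {k : Type} [Field k] {K : Type} [Field K] [Algebra k K]
    (φ : MvPolynomial (Fin 2) k ≃ₐ[k] MvPolynomial (Fin 2) k) (z : K × K) : K × K :=
  (aeval ![z.1, z.2] (φ (X 0)), aeval ![z.1, z.2] (φ (X 1)))

private lemma aeval_pt34 {k : Type} [Field k] {K : Type} [Field K] [Algebra k K]
    (φ : MvPolynomial (Fin 2) k ≃ₐ[k] MvPolynomial (Fin 2) k) (z : K × K) (f : MvPolynomial (Fin 2) k) :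
    aeval ![z.1, z.2] (φ f) = aeval ![(pt34 φ z).1, (pt34 φ z).2] f := by
  have h1 : (aeval ![z.1, z.2]).comp (φ : MvPolynomial (Fin 2) k →ₐ[k] MvPolynomial (Fin 2) k) =
      (aeval ![(pt34 φ z).1, (pt34 φ z).2] : MvPolynomial (Fin 2) k →ₐ[k] K) := by
    apply MvPolynomial.algHom_ext
    intro i
    rw [AlgHom.comp_apply, aeval_X]
    fin_cases i <;> rfl
  exact congrArg (fun g => g f) h1

private lemma pt_symm34 {k : Type} [Field k] {K : Type} [Field K] [Algebra k K]
    (φ : MvPolynomial (Fin 2) k ≃ₐ[k] MvPolynomial (Fin 2) k) (z : K × K) : pt34 φ.symm (pt34 φ z) = z := by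
  have h1 : ∀ f : MvPolynomial (Fin 2) k, aeval ![z.1, z.2] (φ f) = aeval ![(pt34 φ z).1, (pt34 φ z).2] f :=
    fun f => aeval_pt34 φ z f
  have h2 : pt34 φ.symm (pt34 φ z) = (aeval ![z.1, z.2] (φ (φ.symm (X 0))), aeval ![z.1, z.2] (φ (φ.symm (X 1)))) := by
    rw [h1, h1]
    rfl
  rw [h2, AlgEquiv.apply_symm_apply, AlgEquiv.apply_symm_apply, aeval_X, aeval_X]
  rfl

theorem sum_equiv {p : ℕ} [Fact p.Prime] {L : Type} [Field L] (ψ : AddChar (ZMod p) L) {k : Type}
    [Field k] (K : Type) [Field K] [Fintype K] [Algebra k K] [Algebra (ZMod p) K]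
    (f : MvPolynomial (Fin 2) k) (φ : MvPolynomial (Fin 2) k ≃ₐ[k] MvPolynomial (Fin 2) k)
    (h : MvPolynomial (Fin 2) k) :
    (Part.plane (φ f + h ^ p - h)).sum ψ K = (Part.plane f).sum ψ K := by
  let e : K × K ≃ K × K :=
    { toFun := pt34 φ
      invFun := pt34 φ.symm
      left_inv := fun z => pt_symm34 φ z
      right_inv := fun z => pt_symm34 φ.symm z }
  have h1 : (Part.plane (φ f + h ^ p - h)).sum ψ K =
      ∑ z : K × K, ψ (Algebra.trace (ZMod p) K (aeval ![z.1, z.2] (φ f + h ^ p - h))) := by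
    rw [Fintype.sum_prod_type]
    rfl
  have h2 : (Part.plane f).sum ψ K = ∑ z : K × K, ψ (Algebra.trace (ZMod p) K (aeval ![z.1, z.2] f)) := by
    rw [Fintype.sum_prod_type]
    rfl
  rw [h1, h2, ← Equiv.sum_comp e (fun z : K × K => ψ (Algebra.trace (ZMod p) K (aeval ![z.1, z.2] f)))]
  refine Finset.sum_congr rfl fun z _ => ?_
  rw [map_sub, map_add, map_pow, map_sub, map_add, trace_frob34, add_sub_cancel_right, aeval_pt34]
  rfl

end Pool.Agent.Helper9.WS
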