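import Pool.Agent.Helper9.WS.Defs

/-!
Project WS (MP_1fe969_ag), block WS-2a: the frame from the Witt vectors of an algebraically closed field.
-/

namespace Pool.Agent.Helper9.WS

open WittVector

private lemma fix34 (p : ℕ) [Fact p.Prime] {κ : Type} [Field κ] [CharP κ p] {x : κ}
    (hx : x ^ p = x) : ∃ a : ZMod p, ZMod.castHom (dvd_refl p) κ a = x := by
  classical
  have hp1 : 1 < p := (Fact.out : p.Prime).one_lt
  have hP : (Polynomial.X ^ p - Polynomial.X : Polynomial κ).natDegree = p :=
    FiniteField.X_pow_card_sub_X_natDegree_eq κ hp1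
  have hP0 : (Polynomial.X ^ p - Polynomial.X : Polynomial κ) ≠ 0 :=
    FiniteField.X_pow_card_sub_X_ne_zero κ hp1
  have hroot : ∀ y : κ, y ∈ (Polynomial.X ^ p - Polynomial.X : Polynomial κ).roots.toFinset ↔
      y ^ p = y := by
    intro y
    rw [Multiset.mem_toFinset, Polynomial.mem_roots hP0, Polynomial.IsRoot.def]
    simp [sub_eq_zero]
  have h1 : (Finset.univ.image (ZMod.castHom (dvd_refl p) κ)) ⊆
      (Polynomial.X ^ p - Polynomial.X : Polynomial κ).roots.toFinset := by
    intro y hy
    obtain ⟨a, -, rfl⟩ := Finset.mem_image.1 hy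
    rw [hroot, ← map_pow, ZMod.pow_card]
  have h2 : (Polynomial.X ^ p - Polynomial.X : Polynomial κ).roots.toFinset.card ≤ p :=
    (Multiset.toFinset_card_le _).trans ((Polynomial.card_roots' _).trans hP.le)
  have h3 : (Finset.univ.image (ZMod.castHom (dvd_refl p) κ)).card = p := by
    rw [Finset.card_image_of_injective _ (ZMod.castHom (dvd_refl p) κ).injective,
      Finset.card_univ, ZMod.card]
  have h4 := Finset.eq_of_subset_of_card_le h1 (h2.trans h3.ge)
  have h5 : x ∈ (Polynomial.X ^ p - Polynomial.X : Polynomial κ).roots.toFinset := (hroot x).2 hx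
  rw [← h4] at h5
  obtain ⟨a, -, ha⟩ := Finset.mem_image.1 h5
  exact ⟨a, ha⟩

private lemma charZero34 (p : ℕ) [Fact p.Prime] (κ : Type) [Field κ] [CharP κ p]
    [PerfectRing κ p] : CharZero (WittVector p κ) := by
  obtain ⟨q, hq⟩ := CharP.exists (WittVector p κ)
  rcases CharP.char_is_prime_or_zero (WittVector p κ) q with h | h
  · exfalso
    have h1 : ((q : ℕ) : WittVector p κ) = 0 := CharP.cast_eq_zero _ q
    have h2 : ((q : ℕ) : κ) = 0 := by
      have h2 := congrArg (WittVector.constantCoeff : WittVector p κ →+* κ) h1
      rwa [map_natCast, map_zero] at h2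
    have h3 : p ∣ q := (CharP.cast_eq_zero_iff κ p q).1 h2
    have h4 : p = q := (Nat.prime_dvd_prime_iff_eq Fact.out h).1 h3
    rw [← h4] at h1
    exact WittVector.p_nonzero p κ h1
  · subst h
    exact CharP.charP_to_charZero (WittVector p κ)

/-- sums of Teichmueller representatives over a Frobenius orbit are close to natural numbers -/
private lemma approx34 (p : ℕ) [Fact p.Prime] (κ : Type) [Field κ] [CharP κ p] (r : ℕ) (t : κ)
    (ht : t ^ p ^ r = t) (N : ℕ) : ∃ (n : ℕ) (y : WittVector p κ),
      ∑ i ∈ Finset.range r, teichmuller p t ^ p ^ i = n + (p : WittVector p κ) ^ N * y := by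
  have h1 : WittVector.frobenius (∑ i ∈ Finset.range r, teichmuller p t ^ p ^ i) =
      ∑ i ∈ Finset.range r, teichmuller p t ^ p ^ i := by
    have h2 : ∀ i, WittVector.frobenius (teichmuller p t ^ p ^ i) =
        teichmuller p t ^ p ^ (i + 1) := by
      intro i
      rw [frobenius_eq_map_frobenius, map_pow, map_teichmuller, frobenius_def, map_pow,
        ← pow_mul, pow_succ' p i]
    rw [map_sum, Finset.sum_congr rfl fun i _ => h2 i]
    have h3 := Finset.sum_range_succ (fun i => teichmuller p t ^ p ^ i) r
    rw [Finset.sum_range_succ'] at h3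
    have h4 : teichmuller p t ^ p ^ r = teichmuller p t ^ p ^ 0 := by
      rw [← map_pow, ht, pow_zero, pow_one]
    rw [h4] at h3
    exact add_right_cancel h3
  set τ := ∑ i ∈ Finset.range r, teichmuller p t ^ p ^ i with hτ
  have h2 : ∀ n, ∃ a : ZMod p, ZMod.castHom (dvd_refl p) κ a = τ.coeff n := by
    intro n
    apply fix34
    rw [← coeff_frobenius_charP, h1]
  choose a ha using h2
  have h3 : WittVector.map (ZMod.castHom (dvd_refl p) κ) (WittVector.mk p a) = τ := by
    ext n
    rw [map_coeff, coeff_mk, ha]
  obtain ⟨c, hc⟩ := Ideal.mem_span_singleton.1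
    (PadicInt.appr_spec N (WittVector.equiv p (WittVector.mk p a)))
  refine ⟨(WittVector.equiv p (WittVector.mk p a)).appr N,
    WittVector.map (ZMod.castHom (dvd_refl p) κ) ((WittVector.equiv p).symm c), ?_⟩
  have h4 : WittVector.mk p a = ((WittVector.equiv p (WittVector.mk p a)).appr N : WittVector p (ZMod p)) +
      (p : WittVector p (ZMod p)) ^ N * (WittVector.equiv p).symm c := by
    apply (WittVector.equiv p).injective
    rw [map_add, map_mul, map_pow, map_natCast, map_natCast, RingEquiv.apply_symm_apply, ← hc]
    ring
  rw [← h3]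
  conv_lhs => rw [h4]
  rw [map_add, map_mul, map_pow, map_natCast, map_natCast]

theorem exists_frame_witt (p : ℕ) [Fact p.Prime] (κ : Type) [Field κ] [CharP κ p]
    [IsAlgClosed κ] : ∃ (L : Type) (_ : Field L) (_ : CharZero L) (_ : IsAlgClosed L)
      (Φ : Frame p κ L), ∀ x y, Φ.v (Φ.T x + Φ.T y - Φ.T (x + y)) < 1 := by
  have hperf : PerfectRing κ p := inferInstance
  have hcz : CharZero (WittVector p κ) := charZero34 p κ
  have hcz' : CharZero (FractionRing (WittVector p κ)) :=
    charZero_of_injective_algebraMap (IsFractionRing.injective (WittVector p κ) (FractionRing (WittVector p κ)))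
  have hcz'' : CharZero (AlgebraicClosure (FractionRing (WittVector p κ))) :=
    charZero_of_injective_algebraMap
      (algebraMap (FractionRing (WittVector p κ)) (AlgebraicClosure (FractionRing (WittVector p κ)))).injective
  let f : WittVector p κ →+* AlgebraicClosure (FractionRing (WittVector p κ)) :=
    (algebraMap (FractionRing (WittVector p κ)) (AlgebraicClosure (FractionRing (WittVector p κ)))).comp
      (algebraMap (WittVector p κ) (FractionRing (WittVector p κ)))
  have hf : Function.Injective f :=
    (algebraMap (FractionRing (WittVector p κ)) _).injective.comp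
      (IsFractionRing.injective (WittVector p κ) (FractionRing (WittVector p κ)))
  obtain ⟨A, hA, hloc⟩ := IsLocalRing.exists_factor_valuationRing f
  have hle : ∀ x, A.valuation (f x) ≤ 1 := fun x => (A.valuation_le_one_iff _).2 (hA x)
  have hlt : ∀ x, ¬ IsUnit x → A.valuation (f x) < 1 := by
    intro x hx
    apply (A.valuation_lt_one_iff ⟨f x, hA _⟩).1
    rw [IsLocalRing.mem_maximalIdeal, mem_nonunits_iff]
    intro h3
    exact hx (hloc.map_nonunit _ h3)
  refine ⟨AlgebraicClosure (FractionRing (WittVector p κ)), inferInstance, hcz'', inferInstance,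
    { O := A
      p_lt := ?_
      T := { toFun := fun x => f (teichmuller p x)
             map_zero' := by rw [teichmuller_zero, map_zero]
             map_one' := by rw [map_one, map_one]
             map_mul' := fun x y => by rw [map_mul, map_mul] }
      T_inj := ?_
      T_le := fun x => hle _
      approx := ?_ }, ?_⟩
  · have h1 : f (p : WittVector p κ) = (p : AlgebraicClosure (FractionRing (WittVector p κ))) :=
      map_natCast f p
    rw [← h1]
    exact hlt _ (WittVector.irreducible p).not_isUnit
  · intro x y hxy
    have h1 := hf hxy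
    have h2 := congrArg (fun z : WittVector p κ => z.coeff 0) h1
    simpa [teichmuller_coeff_zero] using h2
  · intro r t ht N
    obtain ⟨n, y, hy⟩ := approx34 p κ r t ht (N + 1)
    refine ⟨n, ?_, ?_⟩
    · change A.valuation (∑ i ∈ Finset.range r, f (teichmuller p t) ^ p ^ i - n) ≤ _
      have h1 : ∑ i ∈ Finset.range r, f (teichmuller p t) ^ p ^ i - n =
          (p : AlgebraicClosure (FractionRing (WittVector p κ))) ^ N * f (p * y) := by
        have h2 := congrArg f hy
        rw [map_sum, map_add, map_mul, map_pow, map_natCast, map_natCast] at h2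
        simp only [map_pow] at h2
        rw [h2, map_mul, map_natCast]
        ring
      rw [h1, map_mul, map_pow]
      exact mul_le_of_le_one_right' (hle _)
    · have h2 := congrArg (WittVector.constantCoeff : WittVector p κ →+* κ) hy
      rw [map_sum, map_add, map_mul, map_pow, map_natCast, map_natCast, CharP.cast_eq_zero κ p,
        zero_pow (Nat.succ_ne_zero N), zero_mul, add_zero] at h2
      rw [← h2]
      refine Finset.sum_congr rfl fun i _ => ?_
      rw [map_pow, constantCoeff_apply, teichmuller_coeff_zero]
  · intro x y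
    change A.valuation (f (teichmuller p x) + f (teichmuller p y) - f (teichmuller p (x + y))) < 1
    rw [← map_add, ← map_sub]
    refine hlt _ fun hu => ?_
    have h1 := hu.map (WittVector.constantCoeff : WittVector p κ →+* κ)
    rw [map_sub, map_add, constantCoeff_apply, constantCoeff_apply, constantCoeff_apply,
      teichmuller_coeff_zero, teichmuller_coeff_zero, teichmuller_coeff_zero, sub_self] at h1
    exact not_isUnit_zero h1

end Pool.Agent.Helper9.WS
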